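import Mathlib

/-!
# det (A^2 + |AB|^p) >= det (A^2 + A^p B^p): definitions and statements of the parts
-/

set_option autoImplicit false

namespace Pool.Agent.N984.DI

open Matrix Finset
open scoped ComplexOrder

/-- power of a positive semidefinite matrix (spectral calculus) -/
noncomputable def mpow {ι : Type} [Fintype ι] [DecidableEq ι] (X : Matrix ι ι ℂ) (q : ℝ) :
    Matrix ι ι ℂ := cfc (fun x : ℝ => x ^ q) X

/-- `U diag(x) U^*` -/
noncomputable def dg {ι : Type} [Fintype ι] [DecidableEq ι] (U : Matrix ι ι ℂ) (x : ι → ℝ) :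
    Matrix ι ι ℂ := U * Matrix.diagonal (fun i => (x i : ℂ)) * Uᴴ

/-- index sets of the compound matrix -/
abbrev Ix (n k : ℕ) : Type := {s : Finset (Fin n) // s.card = k}

/-- compound matrix: the k x k minors -/
noncomputable def cpd {n : ℕ} (k : ℕ) (T : Matrix (Fin n) (Fin n) ℂ) :
    Matrix (Ix n k) (Ix n k) ℂ :=
  fun I J => (T.submatrix (fun i : Fin k => I.1.orderEmbOfFin I.2 i)
    (fun j : Fin k => J.1.orderEmbOfFin J.2 j)).det

/-- CFD: functional calculus of `U diag(x) U^*` -/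
def CFD : Prop := ∀ (ι : Type) [Fintype ι] [DecidableEq ι] (U : Matrix ι ι ℂ),
  U ∈ Matrix.unitaryGroup ι ℂ → ∀ (x : ι → ℝ) (f : ℝ → ℝ),
    cfc f (dg U x) = dg U (fun i => f (x i))

/-- SPD: spectral decomposition with decreasing eigenvalues -/
def SPD : Prop := ∀ (n : ℕ) (X : Matrix (Fin n) (Fin n) ℂ), X.IsHermitian →
  ∃ U ∈ Matrix.unitaryGroup (Fin n) ℂ, ∃ x : Fin n → ℝ, Antitone x ∧ X = dg U x

/-- OPC: the operator inequality in C*-algebras -/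
def OPC : Prop := ∀ (B : Type) [CStarAlgebra B] [PartialOrder B] [StarOrderedRing B] (a b : B),
  IsStrictlyPositive a → IsStrictlyPositive b → ∀ p : ℝ, 0 ≤ p → p ≤ 2 →
    (b * (a * a) * b) ^ (p / 2) ≤ a * a → b ^ p ≤ a ^ (2 - p)

/-- OP: the operator inequality -/
def OP : Prop := ∀ (ι : Type) [Fintype ι] [DecidableEq ι] (A B : Matrix ι ι ℂ),
  A.PosDef → B.PosDef → ∀ p : ℝ, 0 ≤ p → p ≤ 2 →
    (A * A - mpow (B * (A * A) * B) (p / 2)).PosSemidef → (mpow A (2 - p) - mpow B p).PosSemidef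

/-- CPM: compound matrices -/
def CPM : Prop := ∀ (n k : ℕ),
  (∀ A B : Matrix (Fin n) (Fin n) ℂ, cpd k (A * B) = cpd k A * cpd k B) ∧
  (∀ A : Matrix (Fin n) (Fin n) ℂ, cpd k Aᴴ = (cpd k A)ᴴ) ∧
  (∀ U ∈ Matrix.unitaryGroup (Fin n) ℂ, cpd k U ∈ Matrix.unitaryGroup (Ix n k) ℂ) ∧
  (∀ x : Fin n → ℝ, cpd k (Matrix.diagonal (fun i => (x i : ℂ))) =
    Matrix.diagonal (fun I : Ix n k => ((∏ i ∈ I.1, x i : ℝ) : ℂ)))

/-- CPP: compound matrices and powers -/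
def CPP : Prop := ∀ (n k : ℕ) (A : Matrix (Fin n) (Fin n) ℂ), A.PosDef →
  (cpd k A).PosDef ∧ ∀ q : ℝ, cpd k (mpow A q) = mpow (cpd k A) q

/-- TOPK: largest eigenvalue of the compound matrix -/
def TOPK : Prop := ∀ (n k : ℕ), k ≤ n → ∀ (U : Matrix (Fin n) (Fin n) ℂ),
  U ∈ Matrix.unitaryGroup (Fin n) ℂ → ∀ x : Fin n → ℝ, (∀ i, 0 < x i) → Antitone x → ∀ c : ℝ,
    ((c : ℂ) • (1 : Matrix (Ix n k) (Ix n k) ℂ) - cpd k (dg U x)).PosSemidef ↔
      ∏ i ∈ univ.filter (fun i : Fin n => (i : ℕ) < k), x i ≤ c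

/-- MAJ: weak log majorization -/
def MAJ : Prop := ∀ (n : ℕ) (x y : Fin n → ℝ), (∀ i, 0 < x i) → (∀ i, 0 < y i) → Antitone x →
  Antitone y →
  (∀ k ≤ n, ∏ i ∈ univ.filter (fun i : Fin n => (i : ℕ) < k), x i ≤
    ∏ i ∈ univ.filter (fun i : Fin n => (i : ℕ) < k), y i) →
  ∏ i, (1 + x i) ≤ ∏ i, (1 + y i)

/-- the two matrices which are compared -/
noncomputable def XX {ι : Type} [Fintype ι] [DecidableEq ι] (A B : Matrix ι ι ℂ) (p : ℝ) :
    Matrix ι ι ℂ := mpow A (p / 2 - 1) * mpow B p * mpow A (p / 2 - 1)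

noncomputable def YY {ι : Type} [Fintype ι] [DecidableEq ι] (A B : Matrix ι ι ℂ) (p : ℝ) :
    Matrix ι ι ℂ := A⁻¹ * mpow (B * (A * A) * B) (p / 2) * A⁻¹

/-- NRM: the norm inequality -/
def NRM : Prop := ∀ (ι : Type) [Fintype ι] [DecidableEq ι] (A B : Matrix ι ι ℂ),
  A.PosDef → B.PosDef → ∀ p : ℝ, 0 < p → p ≤ 2 → ∀ c : ℝ, 0 < c →
    ((c : ℂ) • (1 : Matrix ι ι ℂ) - YY A B p).PosSemidef →
    ((c : ℂ) • (1 : Matrix ι ι ℂ) - XX A B p).PosSemidef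

/-- CXY: compounds of the two matrices -/
def CXY : Prop := ∀ (n k : ℕ) (A B : Matrix (Fin n) (Fin n) ℂ), A.PosDef → B.PosDef → ∀ p : ℝ,
  cpd k (XX A B p) = XX (cpd k A) (cpd k B) p ∧ cpd k (YY A B p) = YY (cpd k A) (cpd k B) p

/-- DETS: determinants -/
def DETS : Prop := ∀ (n : ℕ) (A B : Matrix (Fin n) (Fin n) ℂ), A.PosDef → B.PosDef → ∀ p : ℝ,
  (XX A B p).PosDef ∧ (YY A B p).PosDef ∧
  (A * A + mpow A p * mpow B p).det = A.det ^ 2 * (1 + XX A B p).det ∧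
  (A * A + mpow (B * (A * A) * B) (p / 2)).det = A.det ^ 2 * (1 + YY A B p).det

/-- PD: the inequality for positive definite matrices -/
def PD : Prop := ∀ (n : ℕ) (A B : Matrix (Fin n) (Fin n) ℂ), A.PosDef → B.PosDef → ∀ p : ℝ,
  0 < p → p ≤ 2 →
  (A * A + mpow A p * mpow B p).det ≤ (A * A + mpow (B * (A * A) * B) (p / 2)).det

/-- LIMB: passage to singular `B` -/
def LIMB : Prop := PD → ∀ (n : ℕ) (A B : Matrix (Fin n) (Fin n) ℂ), A.PosDef → B.PosSemidef →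
  ∀ p : ℝ, 0 < p → p ≤ 2 →
  (A * A + mpow A p * mpow B p).det ≤ (A * A + mpow (B * (A * A) * B) (p / 2)).det

/-- SINA: `A` singular, or `p = 0` -/
def SINA : Prop := ∀ (n : ℕ) (A B : Matrix (Fin n) (Fin n) ℂ), A.PosSemidef → B.PosSemidef →
  ∀ p : ℝ, 0 ≤ p → p ≤ 2 → (¬ A.PosDef ∨ p = 0) →
  (A * A + mpow A p * mpow B p).det ≤ (A * A + mpow (B * (A * A) * B) (p / 2)).det

/-- ABS: the power of the absolute value; the determinant is nonnegative -/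
def ABS : Prop := ∀ (n : ℕ) (A B : Matrix (Fin n) (Fin n) ℂ), A.PosSemidef → B.PosSemidef →
  ∀ p : ℝ, 0 ≤ p → p ≤ 2 →
  mpow (mpow ((A * B)ᴴ * (A * B)) (1 / 2)) p = mpow (B * (A * A) * B) (p / 2) ∧
  0 ≤ (A * A + mpow A p * mpow B p).det

end Pool.Agent.N984.DI
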