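import Pool.Agent.N984.DI.PDA

set_option autoImplicit false

namespace Pool.Agent.N984.DI

open Matrix Finset
open scoped ComplexOrder

theorem t_FIN (hPD : PD) (hL : LIMB) (hS : SINA) (hA' : ABS) (n : ℕ)
    (A B : Matrix (Fin n) (Fin n) ℂ) (hA : A.PosSemidef) (hB : B.PosSemidef) (p : ℝ)
    (hp0 : 0 ≤ p) (hp2 : p ≤ 2) :
    0 ≤ (A ^ 2 + mpow A p * mpow B p).det ∧
    (A ^ 2 + mpow A p * mpow B p).det ≤
      (A ^ 2 + mpow (mpow ((A * B)ᴴ * (A * B)) (1 / 2)) p).det := by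
  obtain ⟨h1, h2⟩ := hA' n A B hA hB p hp0 hp2
  rw [h1, pow_two]
  refine ⟨h2, ?_⟩
  by_cases hc : ¬ A.PosDef ∨ p = 0
  · exact hS n A B hA hB p hp0 hp2 hc
  · push Not at hc
    exact hL hPD n A B hc.1 hB p (lt_of_le_of_ne hp0 (Ne.symm hc.2)) hp2

end Pool.Agent.N984.DI
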