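import Pool.Agent.N984.DI.Stm

set_option autoImplicit false

namespace Pool.Agent.N984.DI

open Matrix Finset
open scoped ComplexOrder

variable {ι : Type} [Fintype ι] [DecidableEq ι]

theorem uu {U : Matrix ι ι ℂ} (hU : U ∈ Matrix.unitaryGroup ι ℂ) : U * Uᴴ = 1 :=
  Matrix.mem_unitaryGroup_iff.1 hU

theorem uu' {U : Matrix ι ι ℂ} (hU : U ∈ Matrix.unitaryGroup ι ℂ) : Uᴴ * U = 1 :=
  Matrix.mem_unitaryGroup_iff'.1 hU

theorem one_add_dg {U : Matrix ι ι ℂ} (hU : U ∈ Matrix.unitaryGroup ι ℂ) (x : ι → ℝ) :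
    1 + dg U x = U * Matrix.diagonal (fun i => ((1 + x i : ℝ) : ℂ)) * Uᴴ := by
  have h1 : Matrix.diagonal (fun i => ((1 + x i : ℝ) : ℂ)) =
      (1 : Matrix ι ι ℂ) + Matrix.diagonal (fun i => (x i : ℂ)) := by
    rw [← Matrix.diagonal_one, Matrix.diagonal_add]
    congr 1
    ext i
    push_cast
    rfl
  rw [h1, mul_add, add_mul, mul_one, uu hU]
  rfl

theorem det_one_add_dg {U : Matrix ι ι ℂ} (hU : U ∈ Matrix.unitaryGroup ι ℂ) (x : ι → ℝ) :
    (1 + dg U x).det = ((∏ i, (1 + x i) : ℝ) : ℂ) := by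
  rw [one_add_dg hU, Matrix.det_mul, Matrix.det_mul, mul_comm, ← mul_assoc, ← Matrix.det_mul,
    uu' hU, Matrix.det_one, one_mul, Matrix.det_diagonal]
  push_cast
  rfl

theorem pos_of_dg {U : Matrix ι ι ℂ} (hU : U ∈ Matrix.unitaryGroup ι ℂ) {x : ι → ℝ}
    (h : (dg U x).PosDef) (i : ι) : 0 < x i := by
  have h1 : (Matrix.diagonal (fun i => (x i : ℂ))).PosDef := by
    have h2 : Matrix.diagonal (fun i => (x i : ℂ)) = Uᴴ * dg U x * (Uᴴ)ᴴ := by
      rw [Matrix.conjTranspose_conjTranspose]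
      unfold dg
      rw [show Uᴴ * (U * Matrix.diagonal (fun i => (x i : ℂ)) * Uᴴ) * U =
        (Uᴴ * U) * Matrix.diagonal (fun i => (x i : ℂ)) * (Uᴴ * U) by noncomm_ring, uu' hU]
      simp
    rw [h2]
    refine h.mul_mul_conjTranspose_same ?_
    intro a b hab
    have := congrArg (fun v => Matrix.vecMul v U) hab
    simpa [Matrix.vecMul_vecMul, uu' hU] using this
  have h3 := Matrix.PosDef.diag_pos h1 (i := i)
  simpa using h3

theorem t_PDA (h1 : SPD) (h3 : CPP) (h4 : TOPK) (h5 : MAJ) (h6 : NRM) (h7 : CXY) (h8 : DETS) :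
    PD := by
  intro n A B hA hB p hp0 hp2
  obtain ⟨hX, hY, e1, e2⟩ := h8 n A B hA hB p
  rw [e1, e2]
  obtain ⟨U, hU, x, hx, hXd⟩ := h1 n (XX A B p) hX.1
  obtain ⟨V, hV, y, hy, hYd⟩ := h1 n (YY A B p) hY.1
  have hx0 : ∀ i, 0 < x i := pos_of_dg hU (hXd ▸ hX)
  have hy0 : ∀ i, 0 < y i := pos_of_dg hV (hYd ▸ hY)
  have key : ∀ k ≤ n, ∏ i ∈ univ.filter (fun i : Fin n => (i : ℕ) < k), x i ≤
      ∏ i ∈ univ.filter (fun i : Fin n => (i : ℕ) < k), y i := by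
    intro k hk
    have c0 : 0 < ∏ i ∈ univ.filter (fun i : Fin n => (i : ℕ) < k), y i :=
      Finset.prod_pos fun i _ => hy0 i
    have t1 := (h4 n k hk V hV y hy0 hy _).2 le_rfl
    rw [← hYd, (h7 n k A B hA hB p).2] at t1
    have t2 := h6 (Ix n k) (cpd k A) (cpd k B) (h3 n k A hA).1 (h3 n k B hB).1 p hp0 hp2 _ c0 t1
    rw [← (h7 n k A B hA hB p).1, hXd] at t2
    exact (h4 n k hk U hU x hx0 hx _).1 t2
  have m := h5 n x y hx0 hy0 hx hy key
  have hd : 0 ≤ A.det ^ 2 := by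
    have := hA.det_pos
    positivity
  rw [hXd, hYd, det_one_add_dg hU, det_one_add_dg hV]
  exact mul_le_mul_of_nonneg_left (by exact_mod_cast m) hd

end Pool.Agent.N984.DI
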