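import Pool.Agent.N984.DI.Stm

set_option autoImplicit false

namespace Pool.Agent.N984.DI

open Matrix Finset
open scoped ComplexOrder

theorem t_SPD : SPD := by
  intro n X hX
  have h0 : X = dg (hX.eigenvectorUnitary : Matrix (Fin n) (Fin n) ℂ) hX.eigenvalues := by
    have h := hX.spectral_theorem
    rw [Unitary.conjStarAlgAut_apply] at h
    unfold dg
    exact h
  let U : Matrix (Fin n) (Fin n) ℂ := (hX.eigenvectorUnitary : Matrix (Fin n) (Fin n) ℂ)
  have hU : U ∈ Matrix.unitaryGroup (Fin n) ℂ := hX.eigenvectorUnitary.2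
  let e := hX.eigenvalues
  let σ : Equiv.Perm (Fin n) := Tuple.sort (fun i => - e i)
  have hmono : Monotone ((fun i => - e i) ∘ σ) := Tuple.monotone_sort _
  refine ⟨U.submatrix id σ, ?_, fun i => e (σ i), ?_, ?_⟩
  · rw [Matrix.mem_unitaryGroup_iff']
    ext i j
    have h := congrFun (congrFun (Matrix.mem_unitaryGroup_iff'.1 hU) (σ i)) (σ j)
    simp only [Matrix.mul_apply, Matrix.star_apply, Matrix.submatrix_apply, id_eq,
      Matrix.one_apply, EmbeddingLike.apply_eq_iff_eq] at h ⊢
    exact h
  · intro i j hij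
    have := hmono hij
    simp only [Function.comp_apply, neg_le_neg_iff] at this
    exact this
  · conv_lhs => rw [h0]
    show dg U e = _
    ext i j
    unfold dg
    rw [Matrix.mul_apply, Matrix.mul_apply]
    simp only [Matrix.mul_diagonal, Matrix.conjTranspose_apply, Matrix.submatrix_apply, id_eq]
    exact (Equiv.sum_comp σ (fun k => U i k * (e k : ℂ) * star (U j k))).symm

end Pool.Agent.N984.DI
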